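import Pool.Agent.SKQ.Stmts

/-!
# SKQ, row LIM: limits of integrals of functions of a map and its derivative
-/

set_option autoImplicit false

open Metric Set Filter Topology MeasureTheory
open scoped ENNReal

namespace Pool.Agent.SKQ.H48

open Helper22QC

/-- a sequence of nonnegative integrable functions with integrals at most `2 ^ (-j)`: almost
everywhere convergence to `0` and an integrable bound -/
theorem dom_seq {α : Type} [MeasurableSpace α] {μ : Measure α} {g : ℕ → α → ℝ}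
    (g0 : ∀ j x, 0 ≤ g j x) (gi : ∀ j, Integrable (g j) μ)
    (gb : ∀ j, ∫ x, g j x ∂μ ≤ (1 / 2) ^ j) :
    (∀ᵐ x ∂μ, Tendsto (fun j => g j x) atTop (𝓝 0)) ∧
      ∃ h : α → ℝ, Integrable h μ ∧ ∀ᵐ x ∂μ, ∀ j, g j x ≤ h x := by
  have hm : ∀ j, AEMeasurable (fun x => ENNReal.ofReal (g j x)) μ := fun j =>
    ((gi j).1.aemeasurable).ennreal_ofReal
  have hsum : ∫⁻ x, ∑' j, ENNReal.ofReal (g j x) ∂μ ≠ ∞ := by
    rw [lintegral_tsum hm]
    have h1 : ∀ j, ∫⁻ x, ENNReal.ofReal (g j x) ∂μ ≤ ENNReal.ofReal ((1 / 2) ^ j) := by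
      intro j
      rw [← ofReal_integral_eq_lintegral_ofReal (gi j) (ae_of_all _ fun x => g0 j x)]
      exact ENNReal.ofReal_le_ofReal (gb j)
    refine ne_top_of_le_ne_top ?_ (ENNReal.tsum_le_tsum h1)
    have hs : Summable fun j : ℕ => ((1 : ℝ) / 2) ^ j := summable_geometric_two
    rw [← ENNReal.ofReal_tsum_of_nonneg (fun j => by positivity) hs]
    exact ENNReal.ofReal_ne_top
  have hfin := ae_lt_top' (AEMeasurable.ennreal_tsum hm) hsum
  refine ⟨?_, fun x => (∑' j, ENNReal.ofReal (g j x)).toReal,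
    integrable_toReal_of_lintegral_ne_top (AEMeasurable.ennreal_tsum hm) hsum, ?_⟩
  · filter_upwards [hfin] with x hx
    have hs : Summable fun j => g j x := by
      have h2 := ENNReal.summable_toReal hx.ne
      refine h2.congr fun j => ?_
      exact ENNReal.toReal_ofReal (g0 j x)
    exact hs.tendsto_atTop_zero
  · filter_upwards [hfin] with x hx j
    have h3 : ENNReal.ofReal (g j x) ≤ ∑' j, ENNReal.ofReal (g j x) := ENNReal.le_tsum j
    have h4 := ENNReal.toReal_mono hx.ne h3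
    rwa [ENNReal.toReal_ofReal (g0 j x)] at h4

theorem pow_bd (n : ℕ) {a b : ℝ} (ha : 0 ≤ a) (hb : 0 ≤ b) :
    (a + b) ^ n ≤ 2 ^ n * (a ^ n + b ^ n) := by
  refine (add_pow_le ha hb n).trans ?_
  have h1 : (2 : ℝ) ^ (n - 1) ≤ 2 ^ n := pow_le_pow_right₀ (by norm_num) (Nat.sub_le n 1)
  exact mul_le_mul_of_nonneg_right h1 (by positivity)

theorem lim : Pool.Agent.SKQ.LIMStmt := by
  intro n C f F f' P hn hC hF hFi hf' hu hL hP hB
  have hn0 : n ≠ 0 := by omega
  have hCm : MeasurableSet C := hC.measurableSet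
  set μ := (volume : Measure (E n)).restrict C with hμ
  haveI : IsFiniteMeasure μ := ⟨by
    rw [hμ, Measure.restrict_apply_univ]
    exact hC.measure_lt_top⟩
  have hfk : ∀ k, ContinuousOn (f' k) C := fun k => ((hf' k).continuous).continuousOn
  have hfc : ContinuousOn f C := hu.continuousOn (Frequently.of_forall hfk)
  have hdk : ∀ k, Continuous (fderiv ℝ (f' k)) := fun k =>
    (hf' k).continuous_fderiv (by simp)
  obtain ⟨r, hr⟩ := hC.exists_bound_of_continuousOn hfc
  obtain ⟨B, hB'⟩ := hB (r + 1)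
  have hev : ∀ᶠ k in atTop, ∀ y ∈ C, ‖f' k y‖ ≤ r + 1 := by
    have h := Metric.tendstoUniformlyOn_iff.mp hu 1 one_pos
    filter_upwards [h] with k hk y hy
    have h1 := hk y hy
    have h2 := hr y hy
    rw [dist_eq_norm] at h1
    have h3 : ‖f' k y‖ ≤ ‖f y‖ + ‖f y - f' k y‖ := by
      have h4 := norm_sub_norm_le (f' k y) (f y)
      rw [norm_sub_rev] at h4
      linarith
    linarith
  have hae : ∀ᵐ y ∂μ, y ∈ C := ae_restrict_mem hCm
  -- measurability
  have m0 : AEStronglyMeasurable (fun y => P (y, f y, F y)) μ :=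
    hP.comp_aestronglyMeasurable (aestronglyMeasurable_id.prodMk
      ((hfc.aestronglyMeasurable hCm).prodMk hF))
  have mk : ∀ k, AEStronglyMeasurable (fun y => P (y, f' k y, fderiv ℝ (f' k) y)) μ := fun k =>
    hP.comp_aestronglyMeasurable (aestronglyMeasurable_id.prodMk
      (((hfk k).aestronglyMeasurable hCm).prodMk (hdk k).aestronglyMeasurable))
  have i0 : Integrable (fun y => P (y, f y, F y)) μ := by
    have hb : Integrable (fun y => B * (1 + ‖F y‖ ^ n)) μ :=
      ((integrable_const (1 : ℝ)).add hFi).const_mul B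
    refine hb.mono' m0 ?_
    filter_upwards [hae] with y hy
    rw [Real.norm_eq_abs]
    exact hB' y hy (f y) ((hr y hy).trans (by linarith)) (F y)
  refine ⟨i0, ?_⟩
  -- the differences of the derivatives
  have gi : ∀ k, Integrable (fun x => ‖fderiv ℝ (f' k) x - F x‖ ^ n) μ := by
    intro k
    have m1 : AEStronglyMeasurable (fun x => ‖fderiv ℝ (f' k) x - F x‖ ^ n) μ :=
      (((hdk k).aestronglyMeasurable.sub hF).norm).pow n
    have i1 : Integrable (fun x => ‖fderiv ℝ (f' k) x‖ ^ n) μ :=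
      (((hdk k).norm.pow n).continuousOn).integrableOn_compact hC
    have i2 : Integrable (fun x => 2 ^ n * (‖fderiv ℝ (f' k) x‖ ^ n + ‖F x‖ ^ n)) μ :=
      (i1.add hFi).const_mul _
    refine i2.mono' m1 (ae_of_all _ fun x => ?_)
    rw [Real.norm_eq_abs, abs_of_nonneg (by positivity)]
    refine le_trans (pow_le_pow_left₀ (norm_nonneg _) (norm_sub_le _ _) n) ?_
    exact pow_bd n (norm_nonneg _) (norm_nonneg _)
  refine tendsto_of_subseq_tendsto fun ns hns => ?_
  have hsel : ∀ j : ℕ, ∃ m : ℕ, j ≤ m ∧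
      ∫ x, ‖fderiv ℝ (f' (ns m)) x - F x‖ ^ n ∂μ ≤ (1 / 2) ^ j := by
    intro j
    have h1 : ∀ᶠ k in atTop, ∫ x, ‖fderiv ℝ (f' (ns k)) x - F x‖ ^ n ∂μ ≤ (1 / 2 : ℝ) ^ j := by
      have h2 := (hL.comp hns).eventually (Iic_mem_nhds (show (0 : ℝ) < (1 / 2) ^ j by positivity))
      exact h2
    obtain ⟨m, hm1, hm2⟩ := (h1.and (eventually_ge_atTop j)).exists
    exact ⟨m, hm2, hm1⟩
  choose ms hms1 hms2 using hsel
  refine ⟨ms, ?_⟩
  have hmst : Tendsto ms atTop atTop := tendsto_atTop_mono hms1 tendsto_id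
  have hk : Tendsto (fun j => ns (ms j)) atTop atTop := hns.comp hmst
  obtain ⟨hconv, h, hint, hbd⟩ := dom_seq (μ := μ)
    (g := fun j x => ‖fderiv ℝ (f' (ns (ms j))) x - F x‖ ^ n)
    (fun j x => by positivity) (fun j => gi _) hms2
  have hBi : Integrable (fun y => |B| * (1 + 2 ^ n * (‖F y‖ ^ n + h y))) μ :=
    ((integrable_const (1 : ℝ)).add ((hFi.add hint).const_mul (2 ^ n))).const_mul |B|
  refine tendsto_integral_filter_of_dominated_convergence
    (fun y => |B| * (1 + 2 ^ n * (‖F y‖ ^ n + h y)))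
    (Eventually.of_forall fun j => mk _) ?_ hBi ?_
  · filter_upwards [hk.eventually hev] with j hj
    filter_upwards [hae, hbd] with y hy hby
    rw [Real.norm_eq_abs]
    refine (hB' y hy _ (hj y hy) _).trans ?_
    have h1 : ‖fderiv ℝ (f' (ns (ms j))) y‖ ^ n ≤ 2 ^ n * (‖F y‖ ^ n + h y) := by
      have h2 : ‖fderiv ℝ (f' (ns (ms j))) y‖ ≤
          ‖F y‖ + ‖fderiv ℝ (f' (ns (ms j))) y - F y‖ := by
        have h4 := norm_sub_norm_le (fderiv ℝ (f' (ns (ms j))) y) (F y)
        linarith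
      refine (pow_le_pow_left₀ (norm_nonneg _) h2 n).trans ?_
      refine (pow_bd n (norm_nonneg _) (norm_nonneg _)).trans ?_
      have h5 := hby j
      have h6 : (0 : ℝ) ≤ 2 ^ n := by positivity
      exact mul_le_mul_of_nonneg_left (by linarith) h6
    have h7 : (0 : ℝ) ≤ 1 + ‖fderiv ℝ (f' (ns (ms j))) y‖ ^ n := by positivity
    calc B * (1 + ‖fderiv ℝ (f' (ns (ms j))) y‖ ^ n)
        ≤ |B| * (1 + ‖fderiv ℝ (f' (ns (ms j))) y‖ ^ n) :=
          mul_le_mul_of_nonneg_right (le_abs_self B) h7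
      _ ≤ |B| * (1 + 2 ^ n * (‖F y‖ ^ n + h y)) :=
          mul_le_mul_of_nonneg_left (by linarith) (abs_nonneg B)
  · filter_upwards [hae, hconv] with y hy hcy
    have t1 : Tendsto (fun j => f' (ns (ms j)) y) atTop (𝓝 (f y)) :=
      (hu.tendsto_at hy).comp hk
    have t2 : Tendsto (fun j => fderiv ℝ (f' (ns (ms j))) y) atTop (𝓝 (F y)) := by
      rw [tendsto_iff_norm_sub_tendsto_zero]
      have h8 : Tendsto (fun j => (‖fderiv ℝ (f' (ns (ms j))) y - F y‖ ^ n) ^ ((n : ℝ)⁻¹))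
          atTop (𝓝 ((0 : ℝ) ^ ((n : ℝ)⁻¹))) :=
        hcy.rpow_const (Or.inr (by positivity))
      rw [Real.zero_rpow (inv_ne_zero (by exact_mod_cast hn0))] at h8
      refine h8.congr fun j => ?_
      exact Real.pow_rpow_inv_natCast (norm_nonneg _) hn0
    exact (hP.tendsto (y, f y, F y)).comp (tendsto_const_nhds.prodMk_nhds (t1.prodMk_nhds t2))

end Pool.Agent.SKQ.H48
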